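import Pool.Agent.N59.TT.Stm

/-!
# Project TT: free products contain free groups

Two leaves of the project TT of helper59 (worker helper950): a free product with two different
nontrivial factors one of which has at least three elements, or with three factors of order two,
contains a free group of rank two.
-/

set_option autoImplicit false

namespace Pool.Agent.N950.TT

open Pool.Agent.Y110.FJ (permAut)
open Pool.Agent.N59.TT

/-- a criterion for free subgroups of rank two -/
theorem F2_of {C N W : Type} [Group C] [Group N] [Group W] (Ψ : C →* W) (ι : N →* W)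
    (hι : Function.Injective ι) (ρ : N →* FreeGroup (Fin 2)) (g : Fin 2 → C) (t : Fin 2 → N)
    (h : ∀ k, Ψ (g k) = ι (t k)) (h' : ∀ k, ρ (t k) = FreeGroup.of k) : F2 C := by
  refine ⟨FreeGroup.lift g, ?_⟩
  have e1 : Ψ.comp (FreeGroup.lift g) = ι.comp (FreeGroup.lift t) := by
    apply FreeGroup.ext_hom
    intro k
    simp [h]
  have e2 : ρ.comp (FreeGroup.lift t) = MonoidHom.id _ := by
    apply FreeGroup.ext_hom
    intro k
    simp [h']
  intro w w' hw
  have h1 : ι (FreeGroup.lift t w) = ι (FreeGroup.lift t w') := by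
    have := congrArg Ψ hw
    have a1 := DFunLike.congr_fun e1 w
    have a2 := DFunLike.congr_fun e1 w'
    simp only [MonoidHom.comp_apply] at a1 a2
    rw [← a1, ← a2, this]
  have h2 := congrArg ρ (hι h1)
  have a1 := DFunLike.congr_fun e2 w
  have a2 := DFunLike.congr_fun e2 w'
  simp only [MonoidHom.comp_apply, MonoidHom.id_apply] at a1 a2
  rw [a1, a2] at h2
  exact h2

open Classical in
/-- a family of homomorphisms which is `φ` at `i`, `ψ` at `j`, `χ` at `k` and trivial elsewhere -/
noncomputable def fac {I : Type} {A : I → Type} [∀ i, Group (A i)] {W : Type} [Group W]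
    (i j k : I) (φ : A i →* W) (ψ : A j →* W) (χ : A k →* W) (l : I) : A l →* W :=
  if h : i = l then Eq.rec (motive := fun l _ => A l →* W) φ h
  else if h : j = l then Eq.rec (motive := fun l _ => A l →* W) ψ h
  else if h : k = l then Eq.rec (motive := fun l _ => A l →* W) χ h
  else 1

section
variable {I : Type} {A : I → Type} [∀ i, Group (A i)] {W : Type} [Group W]
    (i j k : I) (φ : A i →* W) (ψ : A j →* W) (χ : A k →* W)

theorem fac_i : fac i j k φ ψ χ i = φ := by
  rw [fac, dif_pos rfl]

theorem fac_j (h : i ≠ j) : fac i j k φ ψ χ j = ψ := by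
  rw [fac, dif_neg h, dif_pos rfl]

theorem fac_k (h : i ≠ k) (h' : j ≠ k) : fac i j k φ ψ χ k = χ := by
  rw [fac, dif_neg h, dif_neg h', dif_pos rfl]

end

/-- a commutator in a semidirect product -/
theorem comm_gen {N G : Type} [Group N] [Group G] (φ : G →* MulAut N) (x : N) (g h : G)
    (hgh : g * h = h * g) :
    (SemidirectProduct.inr g : N ⋊[φ] G) * (SemidirectProduct.inl x * SemidirectProduct.inr h *
      (SemidirectProduct.inl x)⁻¹) * (SemidirectProduct.inr g)⁻¹ * (SemidirectProduct.inl x *
      SemidirectProduct.inr h * (SemidirectProduct.inl x)⁻¹)⁻¹ =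
    SemidirectProduct.inl (φ g x * (φ (g * h) x)⁻¹ * φ h x * x⁻¹) := by
  have hg : g * h * g⁻¹ = h := by rw [hgh, mul_inv_cancel_right]
  have e : ∀ (y : N) (k : G), (SemidirectProduct.inr k : N ⋊[φ] G) * SemidirectProduct.inl y =
      SemidirectProduct.inl (φ k y) * SemidirectProduct.inr k := by
    intro y k
    rw [SemidirectProduct.inl_aut, map_inv, inv_mul_cancel_right]
  calc (SemidirectProduct.inr g : N ⋊[φ] G) * (SemidirectProduct.inl x * SemidirectProduct.inr h *
      (SemidirectProduct.inl x)⁻¹) * (SemidirectProduct.inr g)⁻¹ * (SemidirectProduct.inl x *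
      SemidirectProduct.inr h * (SemidirectProduct.inl x)⁻¹)⁻¹
      = (SemidirectProduct.inr g * SemidirectProduct.inl x) * (SemidirectProduct.inr h *
        SemidirectProduct.inl x⁻¹) * SemidirectProduct.inr g⁻¹ * (SemidirectProduct.inl x *
        SemidirectProduct.inr h⁻¹ * (SemidirectProduct.inl x)⁻¹) := by
        simp [mul_assoc]
    _ = SemidirectProduct.inl (φ g x) * (SemidirectProduct.inr g * SemidirectProduct.inl (φ h x⁻¹)) *
        SemidirectProduct.inr h * SemidirectProduct.inr g⁻¹ * (SemidirectProduct.inl x *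
        SemidirectProduct.inr h⁻¹ * (SemidirectProduct.inl x)⁻¹) := by
        rw [e, e]
        simp [mul_assoc]
    _ = SemidirectProduct.inl (φ g x) * SemidirectProduct.inl (φ g (φ h x⁻¹)) *
        (SemidirectProduct.inr (g * h * g⁻¹) * SemidirectProduct.inl x) *
        SemidirectProduct.inr h⁻¹ * (SemidirectProduct.inl x)⁻¹ := by
        rw [e]
        simp [mul_assoc]
    _ = _ := by
        rw [hg, e]
        simp [mul_assoc]

theorem fp3 : S_FP3 := by
  intro I A _ i j hij a a' b ha ha' haa hb
  classical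
  let W := FreeGroup (A i × A j) ⋊[permAut (A i × A j) (A i × A j)] (A i × A j)
  let X : W := SemidirectProduct.inl (FreeGroup.of 1)
  let φ : A i →* W := SemidirectProduct.inr.comp (MonoidHom.inl (A i) (A j))
  let ψ : A j →* W := (MulAut.conj X).toMonoidHom.comp
    (SemidirectProduct.inr.comp (MonoidHom.inr (A i) (A j)))
  let Ψ : Monoid.CoprodI A →* W := Monoid.CoprodI.lift (fac i j j φ ψ ψ)
  let c : A i → Monoid.CoprodI A := fun x =>
    Monoid.CoprodI.of x * Monoid.CoprodI.of b * (Monoid.CoprodI.of x)⁻¹ * (Monoid.CoprodI.of b)⁻¹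
  let tt : A i → FreeGroup (A i × A j) := fun x => FreeGroup.of ((x, 1) : A i × A j) *
      (FreeGroup.of ((x, b) : A i × A j))⁻¹ * FreeGroup.of ((1, b) : A i × A j) *
      (FreeGroup.of (1 : A i × A j))⁻¹
  have hc : ∀ x, Ψ (c x) = SemidirectProduct.inl (tt x) := by
    intro x
    have h1 : Ψ (Monoid.CoprodI.of x) = SemidirectProduct.inr (x, 1) := by
      simp [Ψ, fac_i, φ]
    have h2 : Ψ (Monoid.CoprodI.of b) = X * SemidirectProduct.inr (1, b) * X⁻¹ := by
      simp [Ψ, fac_j _ _ _ _ _ _ hij, ψ]
    have e := comm_gen (permAut (A i × A j) (A i × A j)) (FreeGroup.of 1) ((x, 1) : A i × A j)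
      ((1, b) : A i × A j) (by simp)
    have h3 : Ψ (c x) = Ψ (Monoid.CoprodI.of x) * Ψ (Monoid.CoprodI.of b) *
        (Ψ (Monoid.CoprodI.of x))⁻¹ * (Ψ (Monoid.CoprodI.of b))⁻¹ := by
      simp [c]
    rw [h3, h1, h2]
    refine e.trans ?_
    congr 1
    simp [tt, permAut]
  let ρ : FreeGroup (A i × A j) →* FreeGroup (Fin 2) := FreeGroup.lift fun p =>
    if p = (a, 1) then FreeGroup.of 0 else if p = (a', 1) then FreeGroup.of 1 else 1
  refine F2_of Ψ SemidirectProduct.inl SemidirectProduct.inl_injective ρ ![c a, c a']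
    ![tt a, tt a'] ?_ ?_
  · intro k
    fin_cases k
    · exact hc a
    · exact hc a'
  · intro k
    have e1 : ¬ (a' = a) := fun h => haa h.symm
    have e2 : ¬ ((1 : A i) = a) := fun h => ha h.symm
    have e3 : ¬ ((1 : A i) = a') := fun h => ha' h.symm
    fin_cases k
    · simp [ρ, tt, Prod.ext_iff, hb, e2, e3, haa]
    · simp [ρ, tt, Prod.ext_iff, hb, e1, e2, e3]

/-- the automorphism which inverts the generators -/
noncomputable def invAut : MulAut (FreeGroup (Fin 2)) :=
  MonoidHom.toMulEquiv (FreeGroup.lift fun k => (FreeGroup.of k)⁻¹)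
    (FreeGroup.lift fun k => (FreeGroup.of k)⁻¹)
    (by apply FreeGroup.ext_hom; intro k; simp) (by apply FreeGroup.ext_hom; intro k; simp)

theorem invAut_of (k : Fin 2) : invAut (FreeGroup.of k) = (FreeGroup.of k)⁻¹ := by
  simp [invAut]

theorem invAut_mul : invAut * invAut = 1 := by
  apply MulEquiv.toMonoidHom_injective
  apply FreeGroup.ext_hom
  intro k
  simp [invAut_of]

/-- the homomorphism from a group with two elements given by an involution -/
noncomputable def two {B W : Type} [Group B] [Group W] (x : B) (hx : x ≠ 1)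
    (h : ∀ y : B, y = 1 ∨ y = x) (w : W) (hw : w * w = 1) : B →* W := by
  classical
  exact
  { toFun := fun y => if y = 1 then 1 else w
    map_one' := by simp
    map_mul' := by
      have hxx : x * x = 1 := by
        rcases h (x * x) with h1 | h1
        · exact h1
        · exact absurd (mul_eq_right.mp h1) hx
      intro y z
      rcases h y with rfl | rfl
      · simp
      · rcases h z with rfl | rfl
        · simp
        · simp [hx, hxx, hw] }

theorem two_apply {B W : Type} [Group B] [Group W] (x : B) (hx : x ≠ 1)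
    (h : ∀ y : B, y = 1 ∨ y = x) (w : W) (hw : w * w = 1) : two x hx h w hw x = w := by
  simp [two, hx]

theorem fp2 : S_FP2 := by
  intro I A _ i j k hij hik hjk a b c ha hb hc Ha Hb Hc
  let W := FreeGroup (Fin 2) ⋊[MonoidHom.id (MulAut (FreeGroup (Fin 2)))]
    MulAut (FreeGroup (Fin 2))
  let s : W := SemidirectProduct.inr invAut
  let u : Fin 2 → W := fun k => SemidirectProduct.inl (FreeGroup.of k)
  have hs : s * s = 1 := by
    rw [← map_mul, invAut_mul, map_one]
  have hsu : ∀ k, s * (u k)⁻¹ = u k * s := by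
    intro k
    apply SemidirectProduct.ext
    · simp [s, u, W, invAut_of]
    · simp [s, u, W]
  have hsu' : ∀ k, s * ((u k)⁻¹ * s) = u k := by
    intro k
    rw [← mul_assoc, hsu, mul_assoc, hs, mul_one]
  have hus : ∀ k, (u k)⁻¹ * s * ((u k)⁻¹ * s) = 1 := by
    intro k
    rw [mul_assoc, hsu', inv_mul_cancel]
  let Ψ : Monoid.CoprodI A →* W := Monoid.CoprodI.lift (fac i j k (two a ha Ha s hs)
    (two b hb Hb _ (hus 0)) (two c hc Hc _ (hus 1)))
  have e1 : Ψ (Monoid.CoprodI.of a) = s := by
    simp [Ψ, fac_i, two_apply]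
  have e2 : Ψ (Monoid.CoprodI.of b) = (u 0)⁻¹ * s := by
    simp [Ψ, fac_j _ _ _ _ _ _ hij, two_apply]
  have e3 : Ψ (Monoid.CoprodI.of c) = (u 1)⁻¹ * s := by
    simp [Ψ, fac_k _ _ _ _ _ _ hik hjk, two_apply]
  refine F2_of Ψ SemidirectProduct.inl SemidirectProduct.inl_injective (MonoidHom.id _)
    ![Monoid.CoprodI.of a * Monoid.CoprodI.of b, Monoid.CoprodI.of a * Monoid.CoprodI.of c]
    (fun k => FreeGroup.of k) ?_ ?_
  · intro k
    fin_cases k
    · change Ψ (Monoid.CoprodI.of a * Monoid.CoprodI.of b) = _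
      rw [map_mul, e1, e2]
      exact hsu' 0
    · change Ψ (Monoid.CoprodI.of a * Monoid.CoprodI.of c) = _
      rw [map_mul, e1, e3]
      exact hsu' 1
  · intro k
    rfl

end Pool.Agent.N950.TT
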